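import Pool.Agent.Lib.DR.IfaceG
import Pool.Agent.Lib.DS.G.All

/-!
# Theorem DR, part G: systems of representatives (`S_GR`), from `DS/G`

`isDS_iff`: `DR.IsDS` in the form of `DS/G` (`CN f N c`: `c ≠ ⊥`, `PrI c (2 f)`, norm `± 1` modulo `2 ^ N`).
-/

set_option autoImplicit false

noncomputable section

namespace Pool.Agent.DR.G

open Pool.Agent.MuZ Pool.Agent.FW Pool.Agent.DN Pool.Agent.DR

variable {k t : ℕ}

theorem isDS_iff {f N : ℕ} {D : Finset (Ideal (OO k t))} : DR.IsDS f N D ↔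
    (∀ c ∈ D, DS.G.CN f N c) ∧
    (∀ b : Ideal (OO k t), DS.G.CN f N b → ∃ c ∈ D, ∃ a : Ideal (OO k t), HP f a ∧ Ray (2 * f) b (a * c)) ∧
    ∀ c ∈ D, ∀ c' ∈ D, (∃ a : Ideal (OO k t), HP f a ∧ Ray (2 * f) c' (a * c)) → c = c' :=
  ⟨fun h => ⟨h.mem, fun b hb => h.ex b hb.1 hb.2.1 hb.2.2, h.uni⟩,
    fun h => ⟨h.1, fun b h1 h2 h3 => h.2.1 b ⟨h1, h2, h3⟩, h.2.2⟩⟩

/-- **The systems of representatives exist.** -/
theorem aGR : DR.S_GR := fun k t _ f N hf h15 hN =>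
  ⟨DS.G.aGR k t f N hf h15 hN, by
    obtain ⟨D, hD⟩ := DS.G.aDSx k t f N hf h15 hN
    exact ⟨D, isDS_iff.2 hD⟩⟩

end Pool.Agent.DR.G
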