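import Pool.Agent.Lib.DR.IfaceL
import Pool.Agent.Lib.DR.G.GR

/-!
# Theorem DR, part G: `S_G` from `S_LS`, `S_V`, `S_F`, `S_Lw` (author helper21)
-/

set_option autoImplicit false

open scoped Pointwise

noncomputable section

namespace Pool.Agent.DR.G

open Pool.Agent.MuZ Pool.Agent.FW Pool.Agent.DN Pool.Agent.DR
open Pool.Agent.DI (io ofC io_inj exists_io io_ofC ofC_io VP MP UP TP ex sqr sqr_sq kap)

/-- **Output of Part G.** -/
theorem aSG (ls : DR.S_LS) (v : DR.S_V) (sf : DR.S_F) (lw : DR.S_Lw) : DR.S_G := by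
  intro k t _ f m χ P hf h15 hm hmt hm2 hmf hχ hnc hP
  by_contra hcon
  push Not at hcon
  obtain ⟨⟨R, hR, hR2⟩, -⟩ := DS.G.aR2 k t f 2 hf.pos two_pos
  have hM : FM f m := ⟨hf, h15, hm, hm2, hmf⟩
  have hFR : FR f R := fun b hb => ⟨(hR.mem b hb).1, hR2 b hb⟩
  obtain ⟨M, hMl⟩ := lw k t f m R hM hFR
  have h1 := ls k t f m R χ P hM hFR hR hχ hP (fun N0 => by
    obtain ⟨N, hN, T, hT, D, hD, h⟩ := hcon (max N0 3) (le_max_right _ _)
    exact ⟨N, (le_max_left _ _).trans hN, T, hT, D, hD, fun P' hP' d hd =>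
      h P' d hP' hd.stab hd.fix hd.four⟩)
  obtain ⟨a, b, c, d, hg, hd, hn⟩ := sf k t f M m R hM hFR hR hMl hmt χ hχ hnc P hP
  exact hn ((v k t f M m R hM hFR hR hMl χ hχ P hP).2 h1 a b c d hg hd)

end Pool.Agent.DR.G
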